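import Mathlib

/-!
# MP_c0e3d8: a morphism generating a quasiperiodic word is weakly quasiperiodic

Let `x = f^ω(a)` be quasiperiodic, `f(a)` not a power of `a`. The letter `a` recurs in `x`. If `x`
has two different return words `u ≠ v` to `a`, then `u v^ω` is not quasiperiodic, but
`f^n(u) f^n(v)^ω` is covered by the quasiperiod of `x` for large `n`. If there is only one return
word `u`, then `x = u^ω`, `u ≠ a`, the word `u a^ω` is not quasiperiodic and
`f^n(u) f^n(a)^ω` is covered by a word of the form `u p`, where `f^n(a) = u^t p`. In both cases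
some word `f^k(u) f^k(v)^ω` with `k < n` shows that `f` is weakly quasiperiodic.
-/

set_option autoImplicit false

namespace Pool.Agent.Results.MP_c0e3d8_co.WeaklyQuasiperiodic

variable {A : Type*}

/-- The morphism with images `f` applied to a finite word. -/
def mor (f : A → List A) (w : List A) : List A := w.flatMap f

/-- The prefix of length `m` of the infinite word `w`. -/
def pre (w : ℕ → A) (m : ℕ) : List A := (List.range m).map w

/-- The finite word `y` occurs at position `j` of the infinite word `w`. -/
def Occ (w : ℕ → A) (j : ℕ) (y : List A) : Prop := ∀ t, (h : t < y.length) → w (j + t) = y[t]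

/-- Every position of `w` lies inside some occurrence of `x`. -/
def Covers (x : List A) (w : ℕ → A) : Prop := ∀ i, ∃ j, j ≤ i ∧ i < j + x.length ∧ Occ w j x

/-- The infinite word `w` is quasiperiodic. -/
def QP (w : ℕ → A) : Prop := ∃ x, Covers x w

/-- `f` generates `x = f^ω(a)`: `f(a)` begins with `a`, the lengths `|f^n(a)|` are unbounded and
every `f^n(a)` is a prefix of `x`. -/
def Generates (f : A → List A) (a : A) (x : ℕ → A) : Prop :=
  (∃ u, f a = a :: u) ∧ (∀ N, ∃ n, N ≤ ((mor f)^[n] [a]).length) ∧
    ∀ n, (mor f)^[n] [a] = pre x ((mor f)^[n] [a]).length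

/-- `f(w)` is the infinite word `z`. -/
def IsImage (f : A → List A) (w z : ℕ → A) : Prop :=
  (∀ n, mor f (pre w n) = pre z (mor f (pre w n)).length) ∧
    ∀ N, ∃ n, N ≤ (mor f (pre w n)).length

/-- `f` is weakly quasiperiodic on infinite words. -/
def WeaklyQP (f : A → List A) : Prop := ∃ w z, ¬ QP w ∧ IsImage f w z ∧ QP z

/-! ### Occurrences -/

theorem pre_length (w : ℕ → A) (m : ℕ) : (pre w m).length = m := by simp [pre]

theorem occ_pre (w : ℕ → A) (m : ℕ) : Occ w 0 (pre w m) := by
  intro t h
  simp [pre]

theorem occ_zero {w : ℕ → A} {y : List A} (h : Occ w 0 y) : y = pre w y.length := by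
  apply List.ext_getElem
  · rw [pre_length]
  · intro i h1 h2
    rw [← h i h1]
    simp [pre]

theorem Occ.app {w : ℕ → A} {j : ℕ} {y z : List A} (h1 : Occ w j y) (h2 : Occ w (j + y.length) z) :
    Occ w j (y ++ z) := by
  intro t ht
  by_cases hy : t < y.length
  · rw [List.getElem_append_left hy]
    exact h1 t hy
  · rw [List.getElem_append_right (by omega)]
    have := h2 (t - y.length) (by rw [List.length_append] at ht; omega)
    rw [← this]
    congr 1
    omega

theorem Occ.left {w : ℕ → A} {j : ℕ} {y z : List A} (h : Occ w j (y ++ z)) : Occ w j y := by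
  intro t ht
  have := h t (by rw [List.length_append]; omega)
  rw [this, List.getElem_append_left ht]

theorem Occ.right {w : ℕ → A} {j : ℕ} {y z : List A} (h : Occ w j (y ++ z)) :
    Occ w (j + y.length) z := by
  intro t ht
  have := h (y.length + t) (by rw [List.length_append]; omega)
  rw [List.getElem_append_right (by omega)] at this
  rw [add_assoc, this]
  congr 1
  omega

theorem Occ.pfx {w : ℕ → A} {j : ℕ} {y z : List A} (h : Occ w j y) (hz : z <+: y) :
    Occ w j z := by
  obtain ⟨r, rfl⟩ := hz
  exact h.left

/-- two words occurring at the same place are comparable -/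
theorem Occ.comp {w : ℕ → A} {j : ℕ} {y z : List A} (h1 : Occ w j y) (h2 : Occ w j z)
    (hl : y.length ≤ z.length) : y <+: z := by
  rw [List.prefix_iff_eq_take]
  apply List.ext_getElem
  · rw [List.length_take]; omega
  · intro i h3 h4
    rw [List.getElem_take, ← h1 i h3, ← h2 i (by omega)]

/-- transfer of an occurrence inside a block -/
theorem Occ.transfer {w x : ℕ → A} {s M j : ℕ} {Y q : List A} (h1 : Occ x M Y) (h2 : Occ w s Y)
    (h3 : Occ x j q) (hM : M ≤ j) (hl : j + q.length ≤ M + Y.length) :
    Occ w (s + (j - M)) q := by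
  intro t ht
  have e1 := h1 (j - M + t) (by omega)
  have e2 := h2 (j - M + t) (by omega)
  have e3 := h3 t ht
  rw [← e3, add_assoc, e2, ← e1]
  congr 1
  omega

/-! ### Images of factors -/

theorem mor_append (f : A → List A) (u v : List A) : mor f (u ++ v) = mor f u ++ mor f v := by
  simp [mor]

theorem iter_append (f : A → List A) (n : ℕ) (u v : List A) :
    (mor f)^[n] (u ++ v) = (mor f)^[n] u ++ (mor f)^[n] v := by
  induction n generalizing u v with
  | zero => rfl
  | succ n ih => rw [Function.iterate_succ_apply, Function.iterate_succ_apply,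
      Function.iterate_succ_apply, mor_append, ih]

theorem gen_pre {f : A → List A} {a : A} {x : ℕ → A} (h : Generates f a x) (k : ℕ) {y : List A}
    (hy : Occ x 0 y) : Occ x 0 ((mor f)^[k] y) := by
  obtain ⟨n, hn⟩ := h.2.1 y.length
  have h1 : Occ x 0 ((mor f)^[n] [a]) := by
    rw [h.2.2 n]; exact occ_pre _ _
  obtain ⟨r, hr⟩ := hy.comp h1 hn
  have h2 : Occ x 0 ((mor f)^[k + n] [a]) := by
    rw [h.2.2 (k + n)]; exact occ_pre _ _
  rw [Function.iterate_add_apply, ← hr, iter_append] at h2
  exact h2.left

theorem gen_occ {f : A → List A} {a : A} {x : ℕ → A} (h : Generates f a x) (k : ℕ) {y : List A}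
    {s : ℕ} (hy : Occ x s y) : Occ x ((mor f)^[k] (pre x s)).length ((mor f)^[k] y) := by
  have h1 : Occ x 0 (pre x s ++ y) := by
    apply (occ_pre x s).app
    rw [pre_length, zero_add]
    exact hy
  have h2 := gen_pre h k h1
  rw [iter_append] at h2
  have := h2.right
  rwa [zero_add] at this

/-! ### Eventually periodic words -/

/-- the infinite word `U V V V ⋯` -/
def ev (a : A) (U V : List A) : ℕ → A := fun i =>
  if i < U.length then U.getD i a else V.getD ((i - U.length) % V.length) a

theorem ev_U (a : A) (U V : List A) : Occ (ev a U V) 0 U := by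
  intro t ht
  unfold ev
  rw [zero_add, if_pos ht, List.getD_eq_getElem _ _ ht]

theorem ev_V (a : A) (U V : List A) (k : ℕ) : Occ (ev a U V) (U.length + k * V.length) V := by
  intro t ht
  unfold ev
  rw [if_neg (by omega), show U.length + k * V.length + t - U.length = t + k * V.length by omega,
    Nat.add_mul_mod_self_right, Nat.mod_eq_of_lt ht, List.getD_eq_getElem _ _ ht]

theorem ev_pow (a : A) (U V : List A) (k : ℕ) :
    Occ (ev a U V) 0 (U ++ (List.replicate k V).flatten) ∧
      (U ++ (List.replicate k V).flatten).length = U.length + k * V.length := by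
  induction k with
  | zero => simpa using ev_U a U V
  | succ k ih =>
    rw [List.replicate_succ', List.flatten_append, ← List.append_assoc]
    refine ⟨ih.1.app ?_, ?_⟩
    · rw [zero_add, ih.2]
      simpa using ev_V a U V k
    · rw [List.length_append, ih.2]
      simp
      ring

theorem mor_pow (f : A → List A) (V : List A) (k : ℕ) :
    mor f (List.replicate k V).flatten = (List.replicate k (mor f V)).flatten := by
  induction k with
  | zero => rfl
  | succ k ih => rw [List.replicate_succ, List.replicate_succ, List.flatten_cons,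
      List.flatten_cons, mor_append, ih]

theorem ev_image (f : A → List A) (a : A) (U V : List A) (hV : 0 < V.length)
    (hf : 0 < (mor f V).length) : IsImage f (ev a U V) (ev a (mor f U) (mor f V)) := by
  constructor
  · intro n
    apply occ_zero
    have h1 := ev_pow a U V n
    have h2 : pre (ev a U V) n <+: U ++ (List.replicate n V).flatten := by
      apply (occ_pre _ n).comp h1.1
      rw [pre_length, h1.2]
      nlinarith
    obtain ⟨r, hr⟩ := h2
    have h3 := (ev_pow a (mor f U) (mor f V) n).1
    rw [← mor_pow, ← mor_append, ← hr, mor_append] at h3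
    exact h3.left
  · intro N
    refine ⟨U.length + N * V.length, ?_⟩
    have h1 := ev_pow a U V N
    have h2 : pre (ev a U V) (U.length + N * V.length) = U ++ (List.replicate N V).flatten := by
      rw [← h1.2]
      exact (occ_zero h1.1).symm
    rw [h2, mor_append, mor_pow, (ev_pow a (mor f U) (mor f V) N).2]
    nlinarith

/-- a covering criterion -/
theorem ev_covers (a : A) (U V q : List A) (hV : 0 < V.length)
    (h1 : ∀ i < U.length, ∃ j, j ≤ i ∧ i < j + q.length ∧ Occ (ev a U V) j q)
    (h2 : ∀ k, ∀ i < V.length, ∃ j, j ≤ U.length + k * V.length + i ∧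
      U.length + k * V.length + i < j + q.length ∧ Occ (ev a U V) j q) :
    Covers q (ev a U V) := by
  intro i
  by_cases hi : i < U.length
  · exact h1 i hi
  · have h3 := h2 ((i - U.length) / V.length) ((i - U.length) % V.length) (Nat.mod_lt _ hV)
    have h4 := Nat.div_add_mod (i - U.length) V.length
    rw [mul_comm] at h4
    have h5 : U.length + (i - U.length) / V.length * V.length + (i - U.length) % V.length = i := by
      omega
    rwa [h5] at h3

/-- positions in a block `Y` followed by `B`, where `B` begins with `q` and `Y` with `B` -/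
theorem block_covers {w x : ℕ → A} {s M : ℕ} {Y B q : List A} (hx : Occ x M (Y ++ B))
    (hw : Occ w s (Y ++ B)) (hc : Covers q x) (hq : q <+: B) (hB : B <+: Y) :
    ∀ i < Y.length, ∃ j, j ≤ s + i ∧ s + i < j + q.length ∧ Occ w j q := by
  intro i hi
  have hql := hq.length_le
  obtain ⟨j, hj1, hj2, hj3⟩ := hc (M + i)
  by_cases hjM : M ≤ j
  · refine ⟨s + (j - M), by omega, by omega, ?_⟩
    apply hx.transfer hw hj3 hjM
    rw [List.length_append]
    omega
  · exact ⟨s, by omega, by omega, (hw.left.pfx hB).pfx hq⟩

/-! ### A family of words that are not quasiperiodic -/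

theorem not_qp (a : A) (u v : List A) (hu : a ∉ u) (hv : a ∉ v) (hne : u ≠ v) :
    ¬ QP (ev a (a :: u) (a :: v)) := by
  rintro ⟨q, hq⟩
  set w := ev a (a :: u) (a :: v) with hw
  have w0 : w 0 = a := by simp [hw, ev]
  have hU : Occ w 0 (a :: u) := ev_U _ _ _
  have hV : ∀ k, Occ w ((u.length + 1) + k * (v.length + 1)) (a :: v) := by
    intro k
    have := ev_V a (a :: u) (a :: v) k
    rwa [List.length_cons, List.length_cons] at this
  -- `q` is a prefix
  obtain ⟨j0, hj0, hj0', hq0⟩ := hq 0
  have hj00 : j0 = 0 := by omega
  subst hj00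
  have hqpos : 0 < q.length := by omega
  have hqa : q[0] = a := by rw [← hq0 0 hqpos, add_zero, w0]
  -- positions of `a`
  have hpos : ∀ j, w j = a → j = 0 ∨ ∃ k, j = (u.length + 1) + k * (v.length + 1) := by
    intro j hj
    by_cases hju : j < u.length + 1
    · left
      by_contra hj0
      obtain ⟨i, rfl⟩ : ∃ i, j = i + 1 := ⟨j - 1, by omega⟩
      have := hU (i + 1) (by rw [List.length_cons]; omega)
      rw [zero_add, hj, List.getElem_cons_succ] at this
      exact hu (this ▸ List.getElem_mem _)
    · right
      refine ⟨(j - (u.length + 1)) / (v.length + 1), ?_⟩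
      by_contra hne'
      have h4 := Nat.div_add_mod (j - (u.length + 1)) (v.length + 1)
      rw [mul_comm] at h4
      have h5 := Nat.mod_lt (j - (u.length + 1)) (show 0 < v.length + 1 by omega)
      obtain ⟨i, hi⟩ : ∃ i, (j - (u.length + 1)) % (v.length + 1) = i + 1 :=
        ⟨(j - (u.length + 1)) % (v.length + 1) - 1, by omega⟩
      have := hV ((j - (u.length + 1)) / (v.length + 1)) (i + 1)
        (by rw [List.length_cons]; omega)
      rw [show (u.length + 1) + (j - (u.length + 1)) / (v.length + 1) * (v.length + 1) + (i + 1) = j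
        by omega, hj, List.getElem_cons_succ] at this
      exact hv (this ▸ List.getElem_mem _)
  have hocc : ∀ j, Occ w j q → j = 0 ∨ ∃ k, j = (u.length + 1) + k * (v.length + 1) := by
    intro j hj
    apply hpos
    have := hj 0 hqpos
    rwa [add_zero, hqa] at this
  -- an occurrence in the periodic part
  obtain ⟨j1, hj1, hj1', hq1⟩ := hq (u.length + 1 + q.length)
  obtain ⟨k, hk⟩ : ∃ k, j1 = (u.length + 1) + k * (v.length + 1) := by
    rcases hocc j1 hq1 with h | h
    · omega
    · exact h
  subst hk
  have hV1 : Occ w ((u.length + 1) + k * (v.length + 1) + (v.length + 1)) (a :: v) := by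
    have := hV (k + 1)
    rwa [show (u.length + 1) + (k + 1) * (v.length + 1) =
      (u.length + 1) + k * (v.length + 1) + (v.length + 1) by ring] at this
  have hV0 : Occ w (u.length + 1) (a :: v) := by
    have := hV 0
    rwa [zero_mul, add_zero] at this
  -- the length of `q`
  have hlen : q.length ≤ u.length + 1 ∧ q.length ≤ v.length + 1 := by
    by_contra hlen
    rcases lt_trichotomy u.length v.length with h | h | h
    · -- position `|u| + 1` in `q` is `a`, but lies inside `v`
      have h1 := hq0 (u.length + 1) (by omega)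
      have h2 := hq1 (u.length + 1) (by omega)
      have h3 := hV0 0 (by simp)
      have h4 := hV k (u.length + 1) (by rw [List.length_cons]; omega)
      rw [add_zero, List.getElem_cons_zero] at h3
      rw [zero_add, h3] at h1
      rw [h2, ← h1, List.getElem_cons_succ] at h4
      exact hv (h4 ▸ List.getElem_mem _)
    · apply hne
      apply List.ext_getElem h
      intro i hi1 hi2
      have h1 := hq0 (i + 1) (by omega)
      have h2 := hq1 (i + 1) (by omega)
      have h3 := hU (i + 1) (by rw [List.length_cons]; omega)
      have h4 := hV k (i + 1) (by rw [List.length_cons]; omega)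
      rw [List.getElem_cons_succ] at h3 h4
      rw [← h3, ← h4, h1, h2]
    · have h1 := hq0 (v.length + 1) (by omega)
      have h2 := hq1 (v.length + 1) (by omega)
      have h3 := hV1 0 (by simp)
      have h4 := hU (v.length + 1) (by rw [List.length_cons]; omega)
      rw [add_zero, List.getElem_cons_zero] at h3
      rw [h3] at h2
      rw [h1, ← h2, List.getElem_cons_succ] at h4
      exact hu (h4 ▸ List.getElem_mem _)
  -- cover the last letter of the first block
  obtain ⟨j2, hj2, hj2', hq2⟩ := hq u.length
  have hj20 : j2 = 0 := by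
    rcases hocc j2 hq2 with h | ⟨k', h⟩
    · exact h
    · omega
  have e1 : q.length = u.length + 1 := by omega
  -- cover the last letter of the second block
  obtain ⟨j3, hj3, hj3', hq3⟩ := hq (u.length + 1 + v.length)
  have hj31 : j3 = u.length + 1 := by
    rcases hocc j3 hq3 with h | ⟨k', h⟩
    · omega
    · rcases Nat.eq_zero_or_pos k' with h0 | h0
      · rw [h0] at h; omega
      · nlinarith
  subst hj31
  have e2 : q.length = v.length + 1 := by omega
  apply hne
  apply List.ext_getElem (by omega)
  intro i hi1 hi2
  have h1 := hq0 (i + 1) (by omega)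
  have h2 := hq3 (i + 1) (by omega)
  have h3 := hU (i + 1) (by rw [List.length_cons]; omega)
  have h4 := hV0 (i + 1) (by rw [List.length_cons]; omega)
  rw [List.getElem_cons_succ] at h3 h4
  rw [← h3, ← h4, h1, h2]

/-! ### Iteration -/

theorem iter_cons {f : A → List A} {a : A} (hf : ∃ u, f a = a :: u) (n : ℕ) (y : List A) :
    ∃ z, (mor f)^[n] (a :: y) = a :: z := by
  obtain ⟨u, hu⟩ := hf
  induction n generalizing y with
  | zero => exact ⟨y, rfl⟩
  | succ n ih =>
    rw [Function.iterate_succ_apply]
    have : mor f (a :: y) = a :: (u ++ mor f y) := by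
      simp [mor, hu]
    rw [this]
    exact ih _

/-- if the `n`-th image is quasiperiodic, then `f` is weakly quasiperiodic -/
theorem weakly_of_iter {f : A → List A} {a : A} (hf : ∃ u, f a = a :: u) (u v : List A)
    (h0 : ¬ QP (ev a u (a :: v))) (n : ℕ)
    (hn : QP (ev a ((mor f)^[n] u) ((mor f)^[n] (a :: v)))) : WeaklyQP f := by
  by_contra hw
  have : ∀ k, ¬ QP (ev a ((mor f)^[k] u) ((mor f)^[k] (a :: v))) := by
    intro k
    induction k with
    | zero => exact h0
    | succ k ih =>
      intro hq
      apply hw
      refine ⟨_, _, ih, ev_image f a ((mor f)^[k] u) ((mor f)^[k] (a :: v)) ?_ ?_, ?_⟩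
      · obtain ⟨z, hz⟩ := iter_cons hf k v
        rw [hz]; simp
      · obtain ⟨z, hz⟩ := iter_cons hf (k + 1) v
        rw [Function.iterate_succ_apply'] at hz
        rw [hz]; simp
      · rw [Function.iterate_succ_apply', Function.iterate_succ_apply'] at hq
        exact hq
  exact this n hn

theorem occ_map (x : ℕ → A) (s l : ℕ) : Occ x s ((List.range l).map fun t => x (s + t)) := by
  intro t ht
  simp

theorem result {f : A → List A} {a : A} {x : ℕ → A} (hg : Generates f a x) (hx : QP x)
    (ha : ¬ ∃ k, f a = List.replicate k a) : WeaklyQP f := by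
  classical
  obtain ⟨q, hq⟩ := hx
  have hf := hg.1
  -- `q` is a prefix of `x`
  obtain ⟨j0, hj0, hj0', hq0⟩ := hq 0
  have hj00 : j0 = 0 := by omega
  subst hj00
  have hqpos : 0 < q.length := by omega
  have hx0 : x 0 = a := by
    have := hg.2.2 0
    have h1 : Occ x 0 [a] := by
      rw [Function.iterate_zero, id] at this
      rw [this]; exact occ_pre _ _
    simpa using h1 0 (by simp)
  have hqa : q[0] = a := by rw [← hq0 0 hqpos, add_zero, hx0]
  -- `a` recurs
  have hrec : ∀ N, ∃ s, N ≤ s ∧ x s = a := by
    intro N
    obtain ⟨j, hj1, hj2, hj3⟩ := hq (N + q.length)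
    refine ⟨j, by omega, ?_⟩
    have := hj3 0 hqpos
    rwa [add_zero, hqa] at this
  have hnext : ∀ s, x s = a → ∃ u : List A, a ∉ u ∧ Occ x s (a :: u) ∧
      x (s + (u.length + 1)) = a := by
    intro s hs
    have hex : ∃ l, 0 < l ∧ x (s + l) = a := by
      obtain ⟨t, ht1, ht2⟩ := hrec (s + 1)
      exact ⟨t - s, by omega, by rw [show s + (t - s) = t by omega]; exact ht2⟩
    have hl := Nat.find_spec hex
    have hmin := fun l => Nat.find_min hex (m := l)
    obtain ⟨l, hl'⟩ : ∃ l, Nat.find hex = l + 1 := ⟨Nat.find hex - 1, by omega⟩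
    refine ⟨(List.range l).map fun t => x (s + 1 + t), ?_, ?_, ?_⟩
    · intro hmem
      rw [List.mem_map] at hmem
      obtain ⟨t, ht, hta⟩ := hmem
      rw [List.mem_range] at ht
      refine hmin (t + 1) (by omega) ⟨by omega, ?_⟩
      rw [← hta]; congr 1; omega
    · intro t ht
      cases t with
      | zero => simpa using hs
      | succ t =>
        simp only [List.getElem_cons_succ, List.getElem_map, List.getElem_range]
        congr 1; omega
    · rw [List.length_map, List.length_range, ← hl']
      exact hl.2
  obtain ⟨u, hu1, hu2, hu3⟩ := hnext 0 hx0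
  rw [zero_add] at hu3
  by_cases hP : ∀ s, x s = a → Occ x s (a :: u) ∧ x (s + (u.length + 1)) = a
  · -- one return word
    obtain ⟨m, hm⟩ : ∃ m, m = u.length + 1 := ⟨_, rfl⟩
    rw [← hm] at hP
    have hmul : ∀ k, x (k * m) = a := by
      intro k
      induction k with
      | zero => rw [zero_mul]; exact hx0
      | succ k ih => rw [Nat.succ_mul]; exact (hP _ ih).2
    have hper : ∀ k r, r < m → x (k * m + r) = x r := by
      intro k r hr
      rw [(hP _ (hmul k)).1 r (by rw [List.length_cons]; omega)]
      have := hu2 r (by rw [List.length_cons]; omega)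
      rw [zero_add] at this
      rw [this]
    have hper' : ∀ k i, x (k * m + i) = x i := by
      intro k i
      have h1 := Nat.div_add_mod i m
      rw [mul_comm] at h1
      have h2 := Nat.mod_lt i (show 0 < m by omega)
      rw [← h1, ← add_assoc, ← add_mul, hper _ _ h2, hper _ _ h2]
    have hamul : ∀ i, x i = a → ∃ k, i = k * m := by
      intro i hi
      have h1 := Nat.div_add_mod i m
      rw [mul_comm] at h1
      have h2 := Nat.mod_lt i (show 0 < m by omega)
      refine ⟨i / m, ?_⟩
      by_contra hne
      obtain ⟨r, hr⟩ : ∃ r, i % m = r + 1 := ⟨i % m - 1, by omega⟩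
      rw [← h1, hper _ _ h2, hr] at hi
      have := hu2 (r + 1) (by rw [List.length_cons]; omega)
      rw [zero_add, hi, List.getElem_cons_succ] at this
      exact hu1 (this ▸ List.getElem_mem _)
    have hune : u ≠ [] := by
      rintro rfl
      apply ha
      have hm1 : m = 1 := by simpa using hm
      have h1 := hg.2.2 1
      rw [Function.iterate_one] at h1
      have h2 : mor f [a] = f a := by simp [mor]
      rw [h2] at h1
      refine ⟨(f a).length, ?_⟩
      rw [h1, List.eq_replicate_iff]
      refine ⟨by rw [pre_length], ?_⟩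
      intro b hb
      unfold pre at hb
      rw [List.mem_map] at hb
      obtain ⟨t, _, rfl⟩ := hb
      have := hmul t
      rwa [hm1, mul_one] at this
    obtain ⟨n, hn⟩ := hg.2.1 m
    obtain ⟨V, hV⟩ : ∃ V, V = (mor f)^[n] [a] := ⟨_, rfl⟩
    obtain ⟨U, hU⟩ : ∃ U, U = (mor f)^[n] (a :: u) := ⟨_, rfl⟩
    rw [← hV] at hn
    have hxV : Occ x 0 V := by rw [hV, hg.2.2 n]; exact occ_pre _ _
    have hua : Occ x 0 ((a :: u) ++ [a]) := by
      apply hu2.app
      intro t ht
      have ht0 : t = 0 := by simpa using ht
      subst ht0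
      rw [zero_add, add_zero, List.length_cons]
      exact hu3
    have hxUV : Occ x 0 (U ++ V) := by
      have := gen_pre hg n hua
      rwa [iter_append, ← hU, ← hV] at this
    obtain ⟨zV, hzV⟩ := iter_cons hf n []
    rw [← hV] at hzV
    obtain ⟨K, hK⟩ : ∃ K, U.length = K * m := by
      apply hamul
      have := hxUV.right 0 (by rw [hzV]; simp)
      rw [zero_add, add_zero] at this
      rw [this]
      simp [hzV]
    obtain ⟨t, r, hr, htr⟩ : ∃ t r, r < m ∧ V.length = (t + 1) * m + r := by
      refine ⟨V.length / m - 1, V.length % m, Nat.mod_lt _ (by omega), ?_⟩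
      have h1 := Nat.div_add_mod V.length m
      rw [mul_comm] at h1
      have h2 : 1 ≤ V.length / m := Nat.div_pos hn (by omega)
      rw [Nat.sub_add_cancel h2]
      exact h1.symm
    have hmpos : 0 < m := by omega
    have hqq : ∀ k, Occ x (k * m) (pre x (m + r)) := by
      intro k t ht
      rw [hper']
      simp [pre]
    apply weakly_of_iter hf (a :: u) [] (not_qp a u [] hu1 (by simp) hune) n
    rw [← hU, ← hV]
    refine ⟨pre x (m + r), ev_covers a U V _ (by omega) ?_ ?_⟩
    · intro i hi
      have h1 := Nat.div_add_mod i m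
      rw [mul_comm] at h1
      have h2 := Nat.mod_lt i hmpos
      have h3 : i / m < K := by
        rw [Nat.div_lt_iff_lt_mul hmpos, ← hK]; exact hi
      have hw : Occ (ev a U V) 0 (U ++ V) := by
        apply (ev_U a U V).app
        have := ev_V a U V 0
        rwa [zero_mul, add_zero, ← zero_add U.length] at this
      have h4 := hxUV.transfer hw (hqq (i / m)) (Nat.zero_le _) (by
        rw [pre_length, List.length_append, hK, htr]
        have : (i / m + 1) * m ≤ K * m := Nat.mul_le_mul_right _ h3
        nlinarith)
      rw [zero_add, Nat.sub_zero] at h4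
      refine ⟨i / m * m, by omega, by rw [pre_length]; omega, h4⟩
    · intro k i hi
      have key : ∃ c, c * m ≤ i ∧ i < c * m + (m + r) ∧ c * m + (m + r) ≤ V.length := by
        have h1 := Nat.div_add_mod i m
        rw [mul_comm] at h1
        have h2 := Nat.mod_lt i hmpos
        rcases Nat.lt_or_ge (i / m) (t + 1) with h3 | h3
        · refine ⟨i / m, by omega, by omega, ?_⟩
          rw [htr]
          have : (i / m + 1) * m ≤ (t + 1) * m := Nat.mul_le_mul_right _ h3
          nlinarith
        · refine ⟨t, ?_, ?_, ?_⟩
          · have : (t + 1) * m ≤ i / m * m := Nat.mul_le_mul_right _ h3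
            have e : (t + 1) * m = t * m + m := by ring
            omega
          · rw [htr] at hi
            nlinarith
          · rw [htr]
            nlinarith
      obtain ⟨c, hc1, hc2, hc3⟩ := key
      have h4 := hxV.transfer (ev_V a U V k) (hqq c) (Nat.zero_le _) (by
        rw [pre_length]; omega)
      rw [Nat.sub_zero] at h4
      exact ⟨_, by omega, by rw [pre_length]; omega, h4⟩
  · -- two return words
    push Not at hP
    obtain ⟨s, hs, hs'⟩ := hP
    obtain ⟨v, hv1, hv2, hv3⟩ := hnext s hs
    have hne : u ≠ v := by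
      rintro rfl
      exact hs' hv2 hv3
    obtain ⟨n, hn⟩ := hg.2.1 q.length
    obtain ⟨B, hB⟩ : ∃ B, B = (mor f)^[n] [a] := ⟨_, rfl⟩
    rw [← hB] at hn
    have hxB : Occ x 0 B := by rw [hB, hg.2.2 n]; exact occ_pre _ _
    have hqB : q <+: B := hq0.comp hxB hn
    have hblock : ∀ (y : List A) (p : ℕ), Occ x p (a :: y) → x (p + (y.length + 1)) = a →
        (∃ M, Occ x M ((mor f)^[n] (a :: y) ++ B)) ∧ B <+: (mor f)^[n] (a :: y) := by
      intro y p h1 h2
      have h3 : Occ x p ((a :: y) ++ [a]) := by
        apply h1.app
        intro t ht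
        have ht0 : t = 0 := by simpa using ht
        subst ht0
        rw [add_zero, List.length_cons]
        exact h2
      refine ⟨⟨((mor f)^[n] (pre x p)).length, ?_⟩, ?_⟩
      · have := gen_occ hg n h3
        rw [iter_append, ← hB] at this
        exact this
      · refine ⟨(mor f)^[n] y, ?_⟩
        rw [hB, ← iter_append]
        rfl
    obtain ⟨⟨M1, hM1⟩, hB1⟩ := hblock u 0 hu2 (by rw [zero_add]; exact hu3)
    obtain ⟨⟨M2, hM2⟩, hB2⟩ := hblock v s hv2 hv3
    apply weakly_of_iter hf (a :: u) v (not_qp a u v hu1 hv1 hne) n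
    obtain ⟨U, hU⟩ : ∃ U, U = (mor f)^[n] (a :: u) := ⟨_, rfl⟩
    obtain ⟨V, hV⟩ : ∃ V, V = (mor f)^[n] (a :: v) := ⟨_, rfl⟩
    rw [← hU] at hM1 hB1 ⊢
    rw [← hV] at hM2 hB2 ⊢
    have hVpos : 0 < V.length := by
      have := hqB.length_le
      have := hB2.length_le
      omega
    refine ⟨q, ev_covers a U V q hVpos ?_ ?_⟩
    · intro i hi
      have h1 : Occ (ev a U V) 0 (U ++ B) := by
        apply (ev_U a U V).app
        have := ev_V a U V 0
        rw [zero_mul, add_zero] at this
        rw [zero_add]
        exact this.pfx hB2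
      have := block_covers hM1 h1 hq hqB hB1 i hi
      rwa [zero_add] at this
    · intro k i hi
      have h1 : Occ (ev a U V) (U.length + k * V.length) (V ++ B) := by
        apply (ev_V a U V k).app
        have := ev_V a U V (k + 1)
        rw [show U.length + (k + 1) * V.length = U.length + k * V.length + V.length by ring] at this
        exact this.pfx hB2
      exact block_covers hM2 h1 hq hqB hB2 i hi

end Pool.Agent.Results.MP_c0e3d8_co.WeaklyQuasiperiodic
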